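import Pool.Agent.H75.ST.Stmt

/-! BIG: the pieces are flaps of the replaced structure off the direction and are not small. -/

set_option autoImplicit false

open Set Pool.Agent.TK

namespace Pool.Agent.ST

theorem pf_BIG {C : Type} [MeasurableSpace C] {c0 : C} (hRPF : RPF C c0) (hLDR2 : LDR2 C c0)
    (hMMK : MMK C c0) (hPDB : PDB C c0) (hLRF2 : LRF2 C c0) : BIG C c0 := by
  intro b X M w E D a R r H y w' hw' i hi
  have hM : Valid c0 M := H.hyp.val M H.hM
  have hRDu := hLDR2 b X M w E D a R r H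
  have hRD : RD c0 M a D R y :=
    ⟨hRDu.val, fun i _ => hRDu.valR i (mem_univ _), fun i _ => hRDu.cpM i (mem_univ _),
      fun i _ => hRDu.cpR i (mem_univ _), fun i _ => hRDu.pi i (mem_univ _),
      fun i _ j _ => hRDu.disj i (mem_univ _) j (mem_univ _),
      fun i _ j _ => hRDu.disjA i (mem_univ _) j (mem_univ _)⟩
  obtain ⟨hNv, -, -, -, -, hcpN, hFI⟩ := hRPF M a D R y hRD
  obtain ⟨-, -, -, -, -, hdw, -⟩ := hPDB M hM w E D H.pd
  have hrk : RLe C om b := ((RLe.lim om).trans (RLe.lim (Rk.lim om))).trans H.hyp.base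
  have hri : ∀ i, RLe C b (r i) := by
    intro i
    induction i with
    | zero => exact H.rb
    | succ i ih => exact ih.trans (H.rle i)
  refine ⟨⟨H.pd.fin i, ?_, ?_⟩, ?_⟩
  · have := hcpN i hi
    rwa [H.msa i] at this
  · intro he
    obtain ⟨x, hx⟩ := (H.pd.dir.1 (E i) (H.pd.fin i)).nonempty
    have hdisE : Disjoint (E i) (w (E i)) := (H.pd.dir.1 (E i) (H.pd.fin i)).disj.symm
    have h1 : x ∈ D i := by
      rw [he]; exact hw'.2 (E i) (H.pd.fin i) i hdisE hx
    exact Set.disjoint_left.1 (hdw i i le_rfl) h1 hx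
  · rintro ⟨c, hc, hs⟩
    have h1 : small c0 (r i) (repl c0 M a D R y) (a i) (D i) :=
      hMMK (r i) (hrk.trans (hri i)) _ c (a i) (D i) hNv hc (hcpN i hi) hs
    exact H.big i (h1.fi (hFI i hi))

end Pool.Agent.ST
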