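import Pool.Agent.H75.ST.Stmt

/-! LDR2: the data are admissible. -/

set_option autoImplicit false

open Set Pool.Agent.TK

namespace Pool.Agent.ST

theorem pf_LDR2 {C : Type} [MeasurableSpace C] {c0 : C} (hPDB : PDB C c0) : LDR2 C c0 := by
  intro b X M w E D a R r H
  have hM : Valid c0 M := H.hyp.val M H.hM
  obtain ⟨hdis, -⟩ := hPDB M hM w E D H.pd
  exact ⟨hM, fun i _ => H.valR i, fun i _ => by rw [H.msa i]; exact H.pd.cpD i,
    fun i _ => H.cpR i, fun i _ => H.pi i, fun i _ j _ hij => hdis i j hij,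
    fun i _ j _ => by rw [H.msa i]; exact (H.pd.av j i).symm⟩

end Pool.Agent.ST
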