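import Pool.Agent.H75.ST.Stmt

/-! LRF2: the sides of the finite sets `E n`. -/

set_option autoImplicit false

open Set Pool.Agent.TK

namespace Pool.Agent.ST

theorem pf_LRF2 {C : Type} [MeasurableSpace C] {c0 : C} (hSAT : SAT C c0) (hPDB : PDB C c0)
    (hRPF : RPF C c0) (hLDR2 : LDR2 C c0) : LRF2 C c0 := by
  intro b X M w E D a R r H y
  have hM : Valid c0 M := H.hyp.val M H.hM
  have hRDu := hLDR2 b X M w E D a R r H
  have hRD : RD c0 M a D R y :=
    ⟨hRDu.val, fun i _ => hRDu.valR i (mem_univ _), fun i _ => hRDu.cpM i (mem_univ _),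
      fun i _ => hRDu.cpR i (mem_univ _), fun i _ => hRDu.pi i (mem_univ _),
      fun i _ j _ => hRDu.disj i (mem_univ _) j (mem_univ _),
      fun i _ j _ => hRDu.disjA i (mem_univ _) j (mem_univ _)⟩
  obtain ⟨hNv, -, -, -, -, -, -⟩ := hRPF M a D R y hRD
  obtain ⟨-, -, -, hwm, hin, hout, hnbw, hnbD, -⟩ := hPDB M hM w E D H.pd
  obtain ⟨-, -, -, hcd, hnb⟩ := hSAT b X M w E D a R r H y
  have hcpw : ∀ n, IsCp M (E n) (w (E n)) := fun n => H.pd.dir.1 (E n) (H.pd.fin n)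
  have hsat : ∀ n, ∀ i ∈ y, D i ⊆ w (E n) ∨ Disjoint (D i) (w (E n)) := by
    intro n i _
    rcases Nat.lt_or_ge n i with h | h
    · exact Or.inl (hin i n h)
    · exact Or.inr (hout i n h)
  have hpt : ∀ n, ∃ u ∈ w (E n), ∀ i ∈ y, u ∉ D i := by
    intro n
    obtain ⟨p, hp⟩ := (H.pd.cpD (n + 1)).nonempty
    obtain ⟨q, hq⟩ := (hcpw (n + 1)).nonempty
    have hqn : q ∉ D (n + 1) := fun h =>
      Set.disjoint_left.1 (hout (n + 1) (n + 1) le_rfl) h hq
    have hpw : p ∈ w (E n) := hin (n + 1) n (Nat.lt_succ_self n) hp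
    have hqw : q ∈ w (E n) := hwm n (n + 1) (Nat.le_succ n) hq
    obtain ⟨x, hx, hxw, -, -⟩ := (((hcpw n).cd hM).2 p hpw q hqw).exit hM hp hqn
    refine ⟨x, by simpa using hxw, fun i _ hxi => ?_⟩
    exact Set.disjoint_left.1 (H.pd.av i (n + 1)) hxi (hnbD (n + 1) hx)
  have hN : ∀ n, Nb (repl c0 M a D R y) (w (E n)) = Nb M (w (E n)) := by
    intro n
    refine hnb (w (E n)) (hsat n) ?_
    intro i _
    exact ((H.pd.av i n).mono_right (hnbw n)).symm
  refine ⟨fun n => ?_, hN⟩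
  rw [isCp_iff hNv]
  refine ⟨hcd _ (hsat n) ((hcpw n).cd hM) (hpt n), (hcpw n).disj, ?_⟩
  rw [hN n]
  exact hnbw n

end Pool.Agent.ST
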