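import Pool.Agent.H75.ST.Stmt

/-! LS: a vertex outside `Dm M w` is near to only finitely many pieces. -/

set_option autoImplicit false

open Set Pool.Agent.TK

namespace Pool.Agent.ST

private lemma ball_disj {C : Type} {M : St C} {B : Set ℕ} {z : ℕ} (hz : z ∉ B) :
    ∀ m, ∀ u ∈ ball M B z m, u ∉ B := by
  intro m
  induction m with
  | zero =>
    intro u hu
    have : u = z := hu
    rw [this]; exact hz
  | succ m ih =>
    rintro u (hu | hu)
    · exact ih u hu
    · exact hu.1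

private lemma ball_enter {C : Type} {M : St C} {B W : Set ℕ} {z : ℕ} (hz : z ∉ B)
    (hzF : z ∉ W) (hzn : z ∉ Nb M W) : ∀ m, ∀ u ∈ ball M B z m, u ∈ W →
    ∃ s ∈ Nb M W, s ∉ B ∧ ∃ m' < m, u ∈ ball M B s m' := by
  intro m
  induction m with
  | zero =>
    intro u hu huW
    have : u = z := hu
    exact absurd (this ▸ huW) hzF
  | succ m ih =>
    rintro u (hu | hu) huW
    · obtain ⟨s, hs, hsB, m', hm', hus⟩ := ih u hu huW
      exact ⟨s, hs, hsB, m', by omega, hus⟩
    · obtain ⟨huB, t, ht, hE⟩ := hu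
      by_cases htW : t ∈ W
      · obtain ⟨s, hs, hsB, m', hm', hts⟩ := ih t ht htW
        exact ⟨s, hs, hsB, m' + 1, by omega, Or.inr ⟨huB, t, hts, hE⟩⟩
      · have htN : t ∈ Nb M W := ⟨htW, u, huW, hE⟩
        rcases Nat.eq_zero_or_pos m with h0 | h0
        · exfalso
          rw [h0] at ht
          have : t = z := ht
          exact hzn (this ▸ htN)
        · exact ⟨t, htN, ball_disj hz m t ht, 1, by omega, Or.inr ⟨huB, t, rfl, hE⟩⟩

theorem pf_LS {C : Type} {c0 : C} : LS C c0 := by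
  intro M hM w hw J D K h1 h2 h3 m
  induction m using Nat.strong_induction_on with
  | _ m ih =>
    intro z hz
    have hz' : ∃ F : Set ℕ, F.Finite ∧ z ∈ F ∧ z ∉ Nb M (w F) := by
      by_contra hc
      push Not at hc
      exact hz (fun A hA hzA => hc A hA hzA)
    obtain ⟨F, hF, hzF, hzn⟩ := hz'
    have hcp : IsCp M F (w F) := hw.1 F hF
    have hzW : z ∉ w F := fun h => Set.disjoint_left.1 hcp.disj h hzF
    have hfin1 : {i ∈ J | (K i ∩ F).Nonempty}.Finite := by
      have : {i ∈ J | (K i ∩ F).Nonempty} ⊆ ⋃ x ∈ F, {i ∈ J | x ∈ K i} := by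
        rintro i ⟨hi, x, hxK, hxF⟩
        exact mem_biUnion hxF ⟨hi, hxK⟩
      refine Set.Finite.subset (Set.Finite.biUnion hF ?_) this
      intro x _
      refine Set.Subsingleton.finite ?_
      rintro i ⟨hi, hxi⟩ j ⟨hj, hxj⟩
      by_contra hne
      exact Set.disjoint_left.1 (h3 i hi j hj hne) hxi hxj
    have hfin2 := h1 F hF
    have hfin3 : (⋃ s ∈ F, ⋃ m' ∈ Iio m,
        {i ∈ J | s ∉ Dm M w ∧ (ball M (Dm M w) s m' ∩ K i).Nonempty}).Finite := by
      refine Set.Finite.biUnion hF ?_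
      intro s _
      refine Set.Finite.biUnion (Set.finite_Iio m) ?_
      intro m' hm'
      by_cases hs : s ∉ Dm M w
      · refine (ih m' hm' s hs).subset ?_
        rintro i ⟨hi, -, hi2⟩
        exact ⟨hi, hi2⟩
      · refine Set.Finite.subset Set.finite_empty ?_
        rintro i ⟨-, hi2, -⟩
        exact absurd hi2 hs
    refine ((hfin1.union hfin2).union hfin3).subset ?_
    rintro i ⟨hi, u, hu, huK⟩
    by_cases hK : (K i ∩ F).Nonempty
    · exact Or.inl (Or.inl ⟨hi, hK⟩)
    by_cases hD : D i ⊆ w F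
    · right
      obtain ⟨⟨x, hx⟩, hDK, hcd⟩ := h2 i hi
      have hdis : Disjoint (K i) F := by
        rw [Set.disjoint_left]
        intro y hy hyF
        exact hK ⟨y, hy, hyF⟩
      have hKw : K i ⊆ w F := hcd.subset hM hcp hdis (hDK hx) (hD hx)
      obtain ⟨s, hs, hsB, m', hm', hus⟩ := ball_enter hz hzW hzn m u hu (hKw huK)
      exact mem_biUnion (hcp.nb hM hs) (mem_biUnion hm' ⟨hi, hsB, u, hus, huK⟩)
    · exact Or.inl (Or.inr ⟨hi, hD⟩)

end Pool.Agent.ST
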